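import Pool.Agent.H10.SdA
import Pool.Agent.H10.SdB

namespace Pool.Agent.Results.MP_15e61c_co.Bounds

open Pool.Agent.H10.Sd

theorem result : (∀ c : ℝ, 0 ≤ c → c < 3 / 4 → P c) ∧ (∀ c : ℝ, 9 / 10 ≤ c → ¬ P c) ∧
    3 / 4 ≤ cPrime ∧ cPrime ≤ 9 / 10 := by
  have hb : BddAbove {c | c ∈ Set.Icc (0 : ℝ) 1 ∧ P c} := ⟨1, fun c hc => hc.1.2⟩
  refine ⟨lower, upper, le_of_forall_lt fun c hc => ?_, csSup_le ⟨0, ⟨le_rfl, zero_le_one⟩,
    lower 0 le_rfl (by norm_num)⟩ fun c hc => ?_⟩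
  · have h1 : max 0 ((c + 3 / 4) / 2) < 3 / 4 := max_lt (by norm_num) (by linarith)
    have h2 : max 0 ((c + 3 / 4) / 2) ≤ cPrime :=
      le_csSup hb ⟨⟨le_max_left _ _, by linarith⟩, lower _ (le_max_left _ _) h1⟩
    linarith [le_max_right 0 ((c + 3 / 4) / 2)]
  · by_contra h
    exact upper c (by linarith [not_le.mp h]) hc.2

end Pool.Agent.Results.MP_15e61c_co.Bounds
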